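import Mathlib

set_option autoImplicit false

open Matrix Polynomial

namespace Pool.Agent.MP_584b0c_al.Cyc

/-- unit row vectors indexed by natural numbers (zero beyond N) -/
def e (N k : ℕ) : Fin (N + 1) → ℤ := fun j => if (j : ℕ) = k then 1 else 0

/-- matrix with prescribed rows -/
def mk (N : ℕ) (r : ℕ → Fin (N + 1) → ℤ) : Matrix (Fin (N + 1)) (Fin (N + 1)) ℤ :=
  Matrix.of fun i => r i

lemma e_zero {N k : ℕ} (h : N < k) : e N k = 0 := by
  funext j; simp [e]; omega

lemma e_vecMul {N : ℕ} (r : ℕ → Fin (N + 1) → ℤ) (hr : ∀ k, N < k → r k = 0) (k : ℕ) :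
    e N k ᵥ* mk N r = r k := by
  rcases Nat.lt_or_ge N k with h | h
  · rw [e_zero h, hr k h, Matrix.zero_vecMul]
  · funext j
    have hk : k < N + 1 := by omega
    simp only [vecMul, dotProduct, e, mk, Matrix.of_apply]
    rw [Finset.sum_eq_single (⟨k, hk⟩ : Fin (N + 1))]
    · simp
    · intro b _ hb
      have : (b : ℕ) ≠ k := fun h' => hb (Fin.ext h')
      simp [this]
    · simp

lemma mk_e (N : ℕ) : mk N (e N) = 1 := by
  ext i j
  simp only [mk, e, Matrix.of_apply, Matrix.one_apply]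
  by_cases h : i = j
  · simp [h]
  · have : ¬ ((j : ℕ) = (i : ℕ)) := fun h' => h (Fin.ext h'.symm)
    simp [h, this]

lemma mk_mul {N : ℕ} (r : ℕ → Fin (N + 1) → ℤ) (B : Matrix (Fin (N + 1)) (Fin (N + 1)) ℤ) :
    mk N r * B = mk N (fun k => r k ᵥ* B) := rfl

lemma mk_congr {N : ℕ} {r s : ℕ → Fin (N + 1) → ℤ} (h : ∀ k ≤ N, r k = s k) : mk N r = mk N s := by
  ext i j
  exact congrFun (h i (Nat.lt_succ_iff.1 i.2)) j

/-- rows of `0 ⊕ P'` -/
def hr (N m : ℕ) (d : ℤ) (k : ℕ) : Fin (N + 1) → ℤ :=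
  if k = 0 then 0 else if k ≤ 2 * m then
    (if k % 2 = 1 then e N (k + 1) else e N (k - 1) + d • e N k)
  else if k = 2 * m + 1 then e N (2 * m + 3)
  else if k = 2 * m + 2 then e N (2 * m + 1) + (d - 1) • e N (2 * m + 3)
  else if k = 2 * m + 3 then e N (2 * m + 1) + e N (2 * m + 2) else 0

/-- rows of `P' ⊕ 0` -/
def cr (N m : ℕ) (d : ℤ) (k : ℕ) : Fin (N + 1) → ℤ :=
  if N ≤ k then 0 else if k < 2 * m then
    (if k % 2 = 0 then e N (k + 1) else e N (k - 1) + d • e N k)
  else if k = 2 * m then e N (2 * m + 2)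
  else if k = 2 * m + 1 then e N (2 * m) + (d - 1) • e N (2 * m + 2)
  else if k = 2 * m + 2 then e N (2 * m) + e N (2 * m + 1) else 0

lemma hr_zero {N m : ℕ} {d : ℤ} (hN : N = 2 * m ∨ N = 2 * m + 3) {k : ℕ} (h : N < k) :
    hr N m d k = 0 := by
  unfold hr
  split_ifs with h1 h2 h3 h4 h5 h6
  · rfl
  · omega
  · omega
  · rw [e_zero (by omega)]
  · rw [e_zero (by omega), e_zero (by omega)]; simp
  · rw [e_zero (by omega), e_zero (by omega)]; simp
  · rfl

lemma cr_zero {N m : ℕ} {d : ℤ} {k : ℕ} (h : N < k) :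
    cr N m d k = 0 := by
  unfold cr; rw [if_pos (by omega)]

def ph (N m : ℕ) (d : ℤ) (k : ℕ) : Fin (N + 1) → ℤ := e N k + d • hr N m d k
def pc (N m : ℕ) (d : ℤ) (k : ℕ) : Fin (N + 1) → ℤ := e N k + d • cr N m d k

lemma ph_zero {N m : ℕ} {d : ℤ} (hN : N = 2 * m ∨ N = 2 * m + 3) (k : ℕ) (h : N < k) :
    ph N m d k = 0 := by
  rw [ph, e_zero h, hr_zero hN h]; simp

lemma pc_zero {N m : ℕ} {d : ℤ} (k : ℕ) (h : N < k) :
    pc N m d k = 0 := by
  rw [pc, e_zero h, cr_zero h]; simp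

lemma mk_ph (N m : ℕ) (d : ℤ) : mk N (ph N m d) = 1 + d • mk N (hr N m d) := by
  rw [← mk_e]; ext i j; simp [mk, ph]

lemma mk_pc (N m : ℕ) (d : ℤ) : mk N (pc N m d) = 1 + d • mk N (cr N m d) := by
  rw [← mk_e]; ext i j; simp [mk, pc]

/-- rows of the inverse of `mk ph` -/
def rr (N m : ℕ) (d : ℤ) (k : ℕ) : Fin (N + 1) → ℤ :=
  if k = 0 then e N 0 else if k ≤ 2 * m then
    (if k % 2 = 1 then (1 + d ^ 2) • e N k - d • e N (k + 1) else - d • e N (k - 1) + e N k)
  else if k = 2 * m + 1 then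
    (1 - d ^ 3 + d ^ 2) • e N (2 * m + 1) + (d ^ 2) • e N (2 * m + 2) - d • e N (2 * m + 3)
  else if k = 2 * m + 2 then
    (- d + d ^ 3 - d ^ 2) • e N (2 * m + 1) + (1 - d ^ 2) • e N (2 * m + 2) + d • e N (2 * m + 3)
  else
    (d ^ 2 - d) • e N (2 * m + 1) - d • e N (2 * m + 2) + e N (2 * m + 3)

lemma rr_mul {N m : ℕ} {d : ℤ} (hN : N = 2 * m ∨ N = 2 * m + 3) :
    mk N (rr N m d) * mk N (ph N m d) = 1 := by
  rw [mk_mul, ← mk_e]
  apply mk_congr
  intro k hk
  have hv := e_vecMul (ph N m d) (ph_zero hN)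
  have h0 : ph N m d 0 = e N 0 := by simp [ph, hr]
  unfold rr
  split_ifs with h1 h2 h3 h4 h5
  · subst h1; rw [hv, h0]
  · have a1 : ph N m d k = e N k + d • e N (k + 1) := by
      simp [ph, hr, h1, h2, h3]
    have a2 : ph N m d (k + 1) = e N (k + 1) + d • (e N k + d • e N (k + 1)) := by
      have : (k + 1) % 2 ≠ 1 := by omega
      have h' : k + 1 ≤ 2 * m := by omega
      simp [ph, hr, this, h']
    simp only [Matrix.sub_vecMul, Matrix.smul_vecMul, hv, a1, a2]
    module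
  · have a1 : ph N m d k = e N k + d • (e N (k - 1) + d • e N k) := by
      simp [ph, hr, h1, h2, h3]
    have a2 : ph N m d (k - 1) = e N (k - 1) + d • e N k := by
      have h'' : k - 1 ≠ 0 := by omega
      have h3' : (k - 1) % 2 = 1 := by omega
      have h' : k - 1 ≤ 2 * m := by omega
      have h4' : k - 1 + 1 = k := by omega
      simp [ph, hr, h'', h3', h', h4']
    simp only [Matrix.add_vecMul, Matrix.smul_vecMul, hv, a1, a2]
    module
  all_goals
    have b1 : ph N m d (2 * m + 1) = e N (2 * m + 1) + d • e N (2 * m + 3) := by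
      simp [ph, hr]
    have b2 : ph N m d (2 * m + 2) = e N (2 * m + 2) + d • (e N (2 * m + 1)
        + (d - 1) • e N (2 * m + 3)) := by
      simp [ph, hr]
    have b3 : ph N m d (2 * m + 3) = e N (2 * m + 3) + d • (e N (2 * m + 1)
        + e N (2 * m + 2)) := by
      simp [ph, hr]
  · subst h4
    simp only [Matrix.add_vecMul, Matrix.sub_vecMul, Matrix.smul_vecMul, hv, b1, b2, b3]
    module
  · subst h5
    simp only [Matrix.add_vecMul, Matrix.smul_vecMul, hv, b1, b2, b3]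
    module
  · have : k = 2 * m + 3 := by omega
    subst this
    simp only [Matrix.add_vecMul, Matrix.sub_vecMul, Matrix.smul_vecMul, hv, b1, b2, b3]
    module

/-- the free column of the companion matrix -/
def bb (N m : ℕ) (d : ℤ) (κ : ℕ → ℤ) (k : ℕ) : ℤ :=
  if k = N then 1 else if k < 2 * m then
    (if k % 2 = 0 then κ (k + 2) - d * κ (k + 1) else κ k)
  else if k = 2 * m then κ (2 * m + 2) - (d - 1) * κ (2 * m + 1)
  else if k = 2 * m + 1 then κ (2 * m + 3) - (κ (2 * m + 2) - (d - 1) * κ (2 * m + 1))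
  else if k = 2 * m + 2 then κ (2 * m + 1) else 0

/-- rows of the companion matrix `M_b` -/
def mr (N m : ℕ) (d : ℤ) (κ : ℕ → ℤ) (k : ℕ) : Fin (N + 1) → ℤ :=
  e N (k + 1) + bb N m d κ k • e N 0

/-- rows of `K` -/
def kr (N m : ℕ) (d : ℤ) (κ : ℕ → ℤ) (k : ℕ) : Fin (N + 1) → ℤ :=
  ph N m d k + (d * κ k) • e N 0

lemma mr_zero {N m : ℕ} {d : ℤ} {κ : ℕ → ℤ} (hN : N = 2 * m ∨ N = 2 * m + 3)
    (hκ : ∀ k, N < k → κ k = 0) (k : ℕ) (h : N < k) : mr N m d κ k = 0 := by
  have hb : bb N m d κ k = 0 := by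
    unfold bb
    split_ifs with h1 h2 h3 h4 h5 h6
    · omega
    · omega
    · omega
    · rw [hκ _ (by omega), hκ _ (by omega)]; simp
    · rw [hκ _ (by omega), hκ _ (by omega), hκ _ (by omega)]; simp
    · rw [hκ _ (by omega)]
    · rfl
  rw [mr, hb, e_zero (by omega)]; simp

lemma kr_zero {N m : ℕ} {d : ℤ} {κ : ℕ → ℤ} (hN : N = 2 * m ∨ N = 2 * m + 3)
    (hκ : ∀ k, N < k → κ k = 0) (k : ℕ) (h : N < k) : kr N m d κ k = 0 := by
  rw [kr, ph_zero hN k h, hκ k h]; simp

/-- `M_b` is unimodular -/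
lemma mr_inv {N m : ℕ} {d : ℤ} {κ : ℕ → ℤ} (hN : N = 2 * m ∨ N = 2 * m + 3)
    (hκ : ∀ k, N < k → κ k = 0) :
    mk N (fun k => if k = 0 then e N N else e N (k - 1) - bb N m d κ (k - 1) • e N N)
      * mk N (mr N m d κ) = 1 := by
  rw [mk_mul, ← mk_e]
  apply mk_congr
  intro k hk
  have hv := e_vecMul (mr N m d κ) (mr_zero hN hκ)
  have hNN : mr N m d κ N = e N 0 := by
    rw [mr, e_zero (by omega)]; simp [bb]
  split_ifs with h
  · rw [hv, hNN, h]
  · simp only [Matrix.sub_vecMul, Matrix.smul_vecMul, hv, hNN]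
    rw [mr]
    have : k - 1 + 1 = k := by omega
    rw [this]
    module

/-- `M_b K = (P ⊕ 1) M_b` -/
lemma mr_kr {N m : ℕ} {d : ℤ} {κ : ℕ → ℤ} (hN : N = 2 * m ∨ N = 2 * m + 3)
    (hκ : ∀ k, N < k → κ k = 0) (hκ0 : κ 0 = 0) :
    mk N (mr N m d κ) * mk N (kr N m d κ) = mk N (pc N m d) * mk N (mr N m d κ) := by
  rw [mk_mul, mk_mul]
  apply mk_congr
  intro k hk
  have hv := e_vecMul (mr N m d κ) (mr_zero hN hκ)
  have hv' := e_vecMul (kr N m d κ) (kr_zero hN hκ)
  have hk0 : kr N m d κ 0 = e N 0 := by simp [kr, ph, hr, hκ0]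
  have hL : mr N m d κ k ᵥ* mk N (kr N m d κ)
      = e N (k + 1) + d • hr N m d (k + 1) + (d * κ (k + 1)) • e N 0 + bb N m d κ k • e N 0 := by
    rw [mr]
    simp only [Matrix.add_vecMul, Matrix.smul_vecMul, hv', hk0]
    rw [kr, ph]
  have key : cr N m d k ᵥ* mk N (mr N m d κ) = hr N m d (k + 1) + κ (k + 1) • e N 0 := by
    unfold cr
    split_ifs with h1 h2 h3 h4 h5 h6
    · have : k = N := by omega
      subst this
      rw [hr_zero hN (by omega), hκ _ (by omega)]; simp
    · rw [hv]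
      have a1 : hr N m d (k + 1) = e N (k + 2) := by
        have : (k + 1) % 2 = 1 := by omega
        have h' : k + 1 ≤ 2 * m := by omega
        simp [hr, this, h']
      have a2 : bb N m d κ (k + 1) = κ (k + 1) := by
        have h' : k + 1 ≠ N := by omega
        have h'' : k + 1 < 2 * m := by omega
        have h''' : (k + 1) % 2 ≠ 0 := by omega
        simp [bb, h', h'', h''']
      rw [mr, a1, a2]
    · have a1 : hr N m d (k + 1) = e N k + d • e N (k + 1) := by
        have : (k + 1) % 2 ≠ 1 := by omega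
        have h' : k + 1 ≤ 2 * m := by omega
        simp [hr, this, h']
      have a2 : bb N m d κ k = κ k := by
        have h' : k ≠ N := by omega
        simp [bb, h', h2, h3]
      have a3 : bb N m d κ (k - 1) = κ (k + 1) - d * κ k := by
        have h' : k - 1 ≠ N := by omega
        have h'' : k - 1 < 2 * m := by omega
        have h''' : (k - 1) % 2 = 0 := by omega
        have h4 : k - 1 + 2 = k + 1 := by omega
        have h5 : k - 1 + 1 = k := by omega
        simp [bb, h', h'', h''', h4, h5]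
      have a4 : k - 1 + 1 = k := by omega
      simp only [Matrix.add_vecMul, Matrix.smul_vecMul, hv]
      rw [mr, mr, a1, a2, a3, a4]
      module
    · subst h4
      have a1 : hr N m d (2 * m + 1) = e N (2 * m + 3) := by simp [hr]
      have a2 : bb N m d κ (2 * m + 2) = κ (2 * m + 1) := by
        have h' : 2 * m + 2 ≠ N := by omega
        simp [bb, h']
      rw [hv, mr, a1, a2]
    · subst h5
      have a1 : hr N m d (2 * m + 1 + 1) = e N (2 * m + 1) + (d - 1) • e N (2 * m + 3) := by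
        simp [hr]
      have a2 : bb N m d κ (2 * m) = κ (2 * m + 2) - (d - 1) * κ (2 * m + 1) := by
        have h' : 2 * m ≠ N := by omega
        simp [bb, h']
      have a3 : bb N m d κ (2 * m + 2) = κ (2 * m + 1) := by
        have h' : 2 * m + 2 ≠ N := by omega
        simp [bb, h']
      simp only [Matrix.add_vecMul, Matrix.smul_vecMul, hv]
      rw [mr, mr, a1, a2, a3]
      module
    · subst h6
      have a1 : hr N m d (2 * m + 2 + 1) = e N (2 * m + 1) + e N (2 * m + 2) := by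
        simp [hr]
      have a2 : bb N m d κ (2 * m) = κ (2 * m + 2) - (d - 1) * κ (2 * m + 1) := by
        have h' : 2 * m ≠ N := by omega
        simp [bb, h']
      have a3 : bb N m d κ (2 * m + 1) = κ (2 * m + 3) - (κ (2 * m + 2) - (d - 1) * κ (2 * m + 1)) := by
        have h' : 2 * m + 1 ≠ N := by omega
        simp [bb, h']
      simp only [Matrix.add_vecMul, hv]
      rw [mr, mr, a1, a2, a3]
      module
    · exfalso; omega
  have hR : pc N m d k ᵥ* mk N (mr N m d κ)
      = e N (k + 1) + bb N m d κ k • e N 0 + d • (hr N m d (k + 1) + κ (k + 1) • e N 0) := by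
    rw [pc]
    simp only [Matrix.add_vecMul, Matrix.smul_vecMul, hv, key]
    rw [mr]
  rw [hL, hR]
  module

end Pool.Agent.MP_584b0c_al.Cyc
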