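import Mathlib

set_option autoImplicit false

open Matrix Polynomial

namespace Pool.Agent.MP_584b0c_al.Cyc

/-- If the rows of a square integer matrix span, it has a left inverse. -/
lemma exists_left_inv_of_span {n : ℕ} (O : Matrix (Fin n) (Fin n) ℤ)
    (h : Submodule.span ℤ (Set.range fun i => O i) = ⊤) :
    ∃ Z : Matrix (Fin n) (Fin n) ℤ, Z * O = 1 := by
  have h1 : ∀ i : Fin n, ∃ c : Fin n → ℤ, ∑ k, c k • O k = (1 : Matrix (Fin n) (Fin n) ℤ) i := by
    intro i
    have : (1 : Matrix (Fin n) (Fin n) ℤ) i ∈ Submodule.span ℤ (Set.range fun i => O i) := by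
      rw [h]; trivial
    rw [Submodule.mem_span_range_iff_exists_fun] at this
    exact this
  choose Z hZ using h1
  refine ⟨Matrix.of Z, ?_⟩
  ext i j
  have := congrFun (hZ i) j
  rw [Matrix.mul_apply, ← this]
  simp [Finset.sum_apply]

lemma span_first {n : ℕ} (F : Matrix (Fin n) (Fin n) ℤ) (c : Fin n → ℤ)
    (hF : Submodule.span ℤ (Set.range fun k : ℕ => c ᵥ* F ^ k) = ⊤) :
    Submodule.span ℤ (Set.range fun k : Fin n => c ᵥ* F ^ (k : ℕ)) = ⊤ := by
  rw [eq_top_iff, ← hF, Submodule.span_le]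
  rintro _ ⟨k, rfl⟩
  show c ᵥ* F ^ k ∈ _
  rcases Nat.eq_zero_or_pos n with hn | hn
  · subst hn
    have : c ᵥ* F ^ k = 0 := Subsingleton.elim _ _
    rw [this]; exact Submodule.zero_mem _
  rw [F.pow_eq_aeval_mod_charpoly k]
  have hdeg : (X ^ k %ₘ F.charpoly).natDegree < n := by
    have : Nonempty (Fin n) := ⟨⟨0, hn⟩⟩
    have h1 := Polynomial.degree_modByMonic_lt (X ^ k) F.charpoly_monic
    rw [F.charpoly_degree_eq_dim, Fintype.card_fin] at h1
    rcases eq_or_ne (X ^ k %ₘ F.charpoly) 0 with h0 | h0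
    · rw [h0]; simpa using hn
    · exact (Polynomial.natDegree_lt_iff_degree_lt h0).2 h1
  rw [Polynomial.aeval_eq_sum_range' hdeg, Matrix.vecMul_sum]
  refine Submodule.sum_mem _ fun i hi => ?_
  rw [Matrix.vecMul_smul]
  exact Submodule.smul_mem _ _ (Submodule.subset_span ⟨⟨i, Finset.mem_range.1 hi⟩, rfl⟩)

lemma exists_conv (r s : ℕ → ℤ) (hr : r 0 = 1) :
    ∃ A : PowerSeries ℤ, A * PowerSeries.mk r = PowerSeries.mk s := by
  have hu : IsUnit (PowerSeries.mk r) := by
    rw [PowerSeries.isUnit_iff_constantCoeff]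
    simp [hr]
  obtain ⟨u, hu⟩ := hu.exists_left_inv
  exact ⟨PowerSeries.mk s * u, by rw [mul_assoc, hu, mul_one]⟩

/-- feedback lemma -/
theorem feedback {n : ℕ} (F X : Matrix (Fin n) (Fin n) ℤ) (c φ : Fin n → ℤ)
    (hF : Submodule.span ℤ (Set.range fun k : ℕ => c ᵥ* F ^ k) = ⊤)
    (hX : Submodule.span ℤ (Set.range fun k : ℕ => φ ᵥ* X ^ k) = ⊤) :
    ∃ (G G' : Matrix (Fin n) (Fin n) ℤ) (γ : Fin n → ℤ), G * G' = 1 ∧ G' * G = 1 ∧
      G * X = (F + vecMulVec γ c) * G := by
  rcases Nat.eq_zero_or_pos n with hn | hn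
  · subst hn
    exact ⟨1, 1, 0, by simp, by simp, Subsingleton.elim _ _⟩
  -- the power series
  let rF : ℕ → ℤ := fun k => if k ≤ n then F.charpoly.coeff (n - k) else 0
  let rX : ℕ → ℤ := fun k => if k ≤ n then X.charpoly.coeff (n - k) else 0
  have hdF : F.charpoly.natDegree = n := by simp [Matrix.charpoly_natDegree_eq_dim]
  have hdX : X.charpoly.natDegree = n := by simp [Matrix.charpoly_natDegree_eq_dim]
  have hlF : F.charpoly.coeff n = 1 := by
    have := F.charpoly_monic.coeff_natDegree; rwa [hdF] at this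
  have hlX : X.charpoly.coeff n = 1 := by
    have := X.charpoly_monic.coeff_natDegree; rwa [hdX] at this
  have hrF0 : rF 0 = 1 := by simp [rF, hlF]
  have hrX0 : rX 0 = 1 := by simp [rX, hlX]
  obtain ⟨A, hA⟩ := exists_conv rF rX hrF0
  let a : ℕ → ℤ := fun k => PowerSeries.coeff k A
  have ha0 : a 0 = 1 := by
    have := congrArg (PowerSeries.coeff 0) hA
    simpa [PowerSeries.coeff_mul, hrF0, hrX0, a] using this
  let w : ℕ → (Fin n → ℤ) := fun k => φ ᵥ* X ^ k
  have hw : ∀ k, w (k + 1) = w k ᵥ* X := by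
    intro k; simp only [w]; rw [pow_succ, Matrix.vecMul_vecMul]
  let h : ℕ → (Fin n → ℤ) := fun k => ∑ p ∈ Finset.HasAntidiagonal.antidiagonal k, a p.1 • w p.2
  have hh0 : h 0 = φ := by simp [h, ha0, w]
  have hrec : ∀ k, h (k + 1) = h k ᵥ* X + a (k + 1) • φ := by
    intro k
    simp only [h]
    rw [Finset.Nat.sum_antidiagonal_succ', Matrix.sum_vecMul, add_comm]
    congr 1
    · refine Finset.sum_congr rfl fun p _ => ?_
      rw [Matrix.smul_vecMul, hw]
    · simp [w]
  -- relation
  have hrel : ∑ p ∈ Finset.HasAntidiagonal.antidiagonal n, rF p.1 • h p.2 = 0 := by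
    have key : ∀ i, (∑ p ∈ Finset.HasAntidiagonal.antidiagonal n, rF p.1 • h p.2) i
        = (∑ p ∈ Finset.HasAntidiagonal.antidiagonal n, rX p.1 • w p.2) i := by
      intro i
      have e1 : (∑ p ∈ Finset.HasAntidiagonal.antidiagonal n, rF p.1 • h p.2) i
          = PowerSeries.coeff n (PowerSeries.mk rF * (A * PowerSeries.mk fun k => w k i)) := by
        rw [PowerSeries.coeff_mul, Finset.sum_apply]
        refine Finset.sum_congr rfl fun p _ => ?_
        rw [PowerSeries.coeff_mul]
        simp [h, a, Finset.sum_apply]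
      have e2 : (∑ p ∈ Finset.HasAntidiagonal.antidiagonal n, rX p.1 • w p.2) i
          = PowerSeries.coeff n (PowerSeries.mk rX * (PowerSeries.mk fun k => w k i)) := by
        rw [PowerSeries.coeff_mul, Finset.sum_apply]
        refine Finset.sum_congr rfl fun p _ => ?_
        simp
      rw [e1, e2, ← hA]
      ring_nf
    have key2 : (∑ p ∈ Finset.HasAntidiagonal.antidiagonal n, rX p.1 • w p.2) = φ ᵥ* (aeval X X.charpoly) := by
      rw [Polynomial.aeval_eq_sum_range, hdX, Matrix.vecMul_sum,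
        ← Finset.Nat.sum_antidiagonal_swap]
      rw [Finset.Nat.sum_antidiagonal_eq_sum_range_succ_mk]
      refine Finset.sum_congr rfl fun j hj => ?_
      have hj' : j ≤ n := Nat.lt_succ_iff.1 (Finset.mem_range.1 hj)
      simp only [Prod.swap, w, Matrix.vecMul_smul]
      congr 1
      simp only [rX]
      rw [if_pos (Nat.sub_le _ _), Nat.sub_sub_self hj']
    funext i
    rw [key i, key2, Matrix.aeval_self_charpoly]
    simp
  -- matrices
  let OF : Matrix (Fin n) (Fin n) ℤ := fun k => c ᵥ* F ^ (k : ℕ)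
  obtain ⟨ZF, hZF⟩ := exists_left_inv_of_span OF (span_first F c hF)
  have hZF' : OF * ZF = 1 := mul_eq_one_comm.1 hZF
  let H : Matrix (Fin n) (Fin n) ℤ := fun k => h (k : ℕ)
  have hspanH : Submodule.span ℤ (Set.range fun i => H i) = ⊤ := by
    rw [eq_top_iff, ← span_first X φ hX, Submodule.span_le]
    rintro _ ⟨k, rfl⟩
    show w (k : ℕ) ∈ Submodule.span ℤ (Set.range fun i => H i)
    have : ∀ k : ℕ, k < n → w k ∈ Submodule.span ℤ (Set.range fun i => H i) := by
      intro k
      induction k using Nat.strong_induction_on with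
      | _ k ih =>
        intro hk
        have e : w k = h k - ∑ p ∈ (Finset.HasAntidiagonal.antidiagonal k).erase (0, k), a p.1 • w p.2 := by
          simp only [h]
          rw [← Finset.add_sum_erase _ _ (show (0, k) ∈ Finset.HasAntidiagonal.antidiagonal k by simp)]
          simp [ha0]
        rw [e]
        refine Submodule.sub_mem _ (Submodule.subset_span ⟨⟨k, hk⟩, rfl⟩)
          (Submodule.sum_mem _ fun p hp => Submodule.smul_mem _ _ (ih _ ?_ ?_))
        · rw [Finset.mem_erase, Finset.HasAntidiagonal.mem_antidiagonal] at hp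
          have h1 : p.1 ≠ 0 := by
            intro h0
            apply hp.1
            ext <;> simp <;> omega
          omega
        · rw [Finset.mem_erase, Finset.HasAntidiagonal.mem_antidiagonal] at hp
          omega
    exact this k k.2
  obtain ⟨ZH, hZH⟩ := exists_left_inv_of_span H hspanH
  have hZH' : H * ZH = 1 := mul_eq_one_comm.1 hZH
  have hOG : OF * (ZF * H) = H := by rw [← mul_assoc, hZF', one_mul]
  -- (c F^k) G = h k for k ≤ n
  have hcG : ∀ k ≤ n, (c ᵥ* F ^ k) ᵥ* (ZF * H) = h k := by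
    have hlt : ∀ k < n, (c ᵥ* F ^ k) ᵥ* (ZF * H) = h k := by
      intro k hk
      have := congrFun hOG ⟨k, hk⟩
      exact this
    intro k hk
    rcases Nat.lt_or_ge k n with h1 | h1
    · exact hlt k h1
    have hkn : k = n := le_antisymm hk h1
    subst hkn
    -- Cayley-Hamilton for F
    have e1 : ∑ p ∈ Finset.HasAntidiagonal.antidiagonal k, rF p.1 • (c ᵥ* F ^ p.2) = 0 := by
      have : (∑ p ∈ Finset.HasAntidiagonal.antidiagonal k, rF p.1 • (c ᵥ* F ^ p.2))
          = c ᵥ* (aeval F F.charpoly) := by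
        rw [Polynomial.aeval_eq_sum_range, hdF, Matrix.vecMul_sum,
          ← Finset.Nat.sum_antidiagonal_swap]
        rw [Finset.Nat.sum_antidiagonal_eq_sum_range_succ_mk]
        refine Finset.sum_congr rfl fun j hj => ?_
        have hj' : j ≤ k := Nat.lt_succ_iff.1 (Finset.mem_range.1 hj)
        simp only [Prod.swap, Matrix.vecMul_smul]
        congr 1
        simp only [rF]
        rw [if_pos (Nat.sub_le _ _), Nat.sub_sub_self hj']
      rw [this, Matrix.aeval_self_charpoly]; simp
    have hmem : (0, k) ∈ Finset.HasAntidiagonal.antidiagonal k := by simp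
    rw [← Finset.add_sum_erase _ _ hmem] at e1 hrel
    simp only [hrF0, one_smul] at e1 hrel
    have e2 : c ᵥ* F ^ k = - ∑ p ∈ (Finset.HasAntidiagonal.antidiagonal k).erase (0, k), rF p.1 • (c ᵥ* F ^ p.2) :=
      eq_neg_of_add_eq_zero_left e1
    have e3 : h k = - ∑ p ∈ (Finset.HasAntidiagonal.antidiagonal k).erase (0, k), rF p.1 • h p.2 :=
      eq_neg_of_add_eq_zero_left hrel
    rw [e2, e3, Matrix.neg_vecMul, Matrix.sum_vecMul]
    congr 1
    refine Finset.sum_congr rfl fun p hp => ?_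
    rw [Matrix.smul_vecMul]
    congr 1
    apply hlt
    rw [Finset.mem_erase, Finset.HasAntidiagonal.mem_antidiagonal] at hp
    have h1 : p.1 ≠ 0 := by
      intro h0
      apply hp.1
      ext <;> simp <;> omega
    omega
  refine ⟨ZF * H, ZH * OF, ZF *ᵥ (fun k : Fin n => - a (k + 1)), ?_, ?_, ?_⟩
  · calc ZF * H * (ZH * OF) = ZF * (H * ZH) * OF := by simp only [mul_assoc]
      _ = 1 := by rw [hZH', mul_one, hZF]
  · calc ZH * OF * (ZF * H) = ZH * (OF * ZF) * H := by simp only [mul_assoc]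
      _ = 1 := by rw [hZF', mul_one, hZH]
  · have hcG0 : c ᵥ* (ZF * H) = φ := by
      have := hcG 0 (Nat.zero_le _)
      simpa [hh0] using this
    have hgoal : OF * (ZF * H * X)
        = OF * ((F + vecMulVec (ZF *ᵥ (fun k : Fin n => - a (k + 1))) c) * (ZF * H)) := by
      have l1 : OF * (ZF * H * X) = H * X := by rw [← mul_assoc, hOG]
      have l2 : OF * ((F + vecMulVec (ZF *ᵥ (fun k : Fin n => - a (k + 1))) c) * (ZF * H))
          = OF * F * (ZF * H) + vecMulVec (fun k : Fin n => - a (k + 1)) φ := by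
        rw [add_mul, mul_add, ← mul_assoc, ← mul_assoc OF (vecMulVec _ _), Matrix.mul_vecMulVec,
          Matrix.vecMulVec_mul, Matrix.mulVec_mulVec, hZF', Matrix.one_mulVec, hcG0]
      rw [l1, l2]
      funext k
      have r1 : (H * X) k = h k ᵥ* X := rfl
      have r2 : (OF * F * (ZF * H)) k = (c ᵥ* F ^ ((k : ℕ) + 1)) ᵥ* (ZF * H) := by
        have : (OF * F * (ZF * H)) k = (OF k ᵥ* F) ᵥ* (ZF * H) := rfl
        rw [this]
        congr 1
        show (c ᵥ* F ^ (k : ℕ)) ᵥ* F = _
        rw [Matrix.vecMul_vecMul, ← pow_succ]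
      have r3 : (vecMulVec (fun k : Fin n => - a (k + 1)) φ) k = - a (k + 1) • φ := by
        funext j; simp [vecMulVec_apply]
      have : ((OF * F * (ZF * H)) + vecMulVec (fun k : Fin n => - a (k + 1)) φ) k
          = (OF * F * (ZF * H)) k + (vecMulVec (fun k : Fin n => - a (k + 1)) φ) k := rfl
      rw [this, r1, r2, r3, hcG _ k.2, hrec]
      module
    have := congrArg (fun Y => ZF * Y) hgoal
    simpa [← mul_assoc, hZF] using this

end Pool.Agent.MP_584b0c_al.Cyc
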