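import Pool.Agent.Work.MP_584b0c_al.Cyc.Obs
import Pool.Agent.Work.MP_584b0c_al.Cyc.Feedback

set_option autoImplicit false

open Matrix Polynomial

namespace Pool.Agent.MP_584b0c_al.Cyc

lemma det_one_sub_vecMulVec {n : ℕ} (u v : Fin n → ℤ) :
    (1 - vecMulVec u v).det = 1 - v ⬝ᵥ u := by
  have h := Matrix.det_one_sub_mul_comm (Matrix.replicateCol Unit u) (Matrix.replicateRow Unit v)
  rw [← Matrix.vecMulVec_eq Unit] at h
  rw [h, Matrix.det_unique]
  simp [Matrix.mul_apply, dotProduct, Matrix.replicateCol, Matrix.replicateRow]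

/-- covector form, in sizes `2m+1` and `2m+4` -/
theorem covector {N m : ℕ} {d : ℤ} (hd : d ≠ 0) (hN : N = 2 * m ∨ N = 2 * m + 3)
    (X : Matrix (Fin (N + 1)) (Fin (N + 1)) ℤ) (φ : Fin (N + 1) → ℤ)
    (hX : Submodule.span ℤ (Set.range fun k : ℕ => φ ᵥ* X ^ k) = ⊤)
    (hdet : (1 + d • X).det = 1) :
    ∃ A A' B B' : Matrix (Fin (N + 1)) (Fin (N + 1)) ℤ, A * A' = 1 ∧ B * B' = 1 ∧
      A * B * A' * B' = 1 + d • X := by
  set Ph := mk N (ph N m d) with hPh
  set Pc := mk N (pc N m d) with hPc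
  set R := mk N (rr N m d) with hR
  have hRP : R * Ph = 1 := rr_mul hN
  have hPR : Ph * R = 1 := mul_eq_one_comm.1 hRP
  have hz : ∀ k : ℕ, N < k → (fun _ : ℕ => (0 : ℤ)) k = 0 := fun _ _ => rfl
  -- Pc is conjugate to Ph
  have hM0 := mr_inv (d := d) (κ := fun _ => 0) hN hz
  have hMK0 := mr_kr (d := d) (κ := fun _ => 0) hN hz rfl
  have hK0 : mk N (kr N m d fun _ => 0) = Ph := by
    apply mk_congr; intro k _; simp [kr]
  rw [hK0] at hMK0
  have hdetM0 : IsUnit (mk N (mr N m d fun _ => 0)).det := by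
    rw [← Matrix.isUnit_iff_isUnit_det]
    exact IsUnit.of_mul_eq_one _ (mul_eq_one_comm.1 hM0)
  have hdetPc : Pc.det = Ph.det := by
    have h1 := congrArg Matrix.det hMK0
    rw [Matrix.det_mul, Matrix.det_mul, mul_comm] at h1
    exact (hdetM0.mul_right_cancel h1).symm
  -- C0 and X0
  set X0 : Matrix (Fin (N + 1)) (Fin (N + 1)) ℤ :=
    (mk N (cr N m d) - mk N (hr N m d)) * R with hX0
  have hC0 : Pc * R = 1 + d • X0 := by
    have h1 : Pc = Ph + d • (mk N (cr N m d) - mk N (hr N m d)) := by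
      rw [hPc, hPh, mk_pc, mk_ph]; module
    rw [h1, add_mul, hPR, hX0, Matrix.smul_mul]
  have hdetC0 : (Pc * R).det = 1 := by
    rw [Matrix.det_mul, hdetPc, ← Matrix.det_mul, hPR, Matrix.det_one]
  -- e 0 is a cyclic covector of X0
  have hvph := e_vecMul (ph N m d) (ph_zero hN)
  have he0Ph : e N 0 ᵥ* Ph = e N 0 := by
    rw [hPh, hvph]; simp [ph, hr]
  have he0R : e N 0 ᵥ* R = e N 0 := by
    conv_lhs => rw [← he0Ph, Matrix.vecMul_vecMul, hPR, Matrix.vecMul_one]
  have hobs : Submodule.span ℤ (Set.range fun k : ℕ => e N 0 ᵥ* X0 ^ k) = ⊤ := by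
    set L := Submodule.span ℤ (Set.range fun k : ℕ => e N 0 ᵥ* X0 ^ k) with hL
    have hLX : ∀ u ∈ L, u ᵥ* X0 ∈ L := by
      intro u hu
      have : L ≤ L.comap (Matrix.vecMulLinear X0) := by
        conv_lhs => rw [hL]
        rw [Submodule.span_le]
        rintro _ ⟨k, rfl⟩
        show (e N 0 ᵥ* X0 ^ k) ᵥ* X0 ∈ L
        rw [Matrix.vecMul_vecMul, ← pow_succ]
        exact Submodule.subset_span ⟨k + 1, rfl⟩
      exact this hu
    have hLC : ∀ u ∈ L, u ᵥ* (Pc * R) ∈ L := by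
      intro u hu
      rw [hC0, Matrix.vecMul_add, Matrix.vecMul_one, Matrix.vecMul_smul]
      exact L.add_mem hu (L.smul_mem _ (hLX u hu))
    refine chain (d := d) hN L (L.comap (Matrix.vecMulLinear R)) ?_ ?_ ?_ ?_ ?_
    · exact Submodule.subset_span ⟨0, by simp⟩
    · show e N 0 ᵥ* R ∈ L
      rw [he0R]
      exact Submodule.subset_span ⟨0, by simp⟩
    · intro u hu
      have hu' : (u ᵥ* Ph) ᵥ* R ∈ L := hu
      rwa [Matrix.vecMul_vecMul, hPR, Matrix.vecMul_one] at hu'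
    · intro u hu
      show (u ᵥ* mk N (cr N m d) - u ᵥ* mk N (hr N m d)) ᵥ* R ∈ L
      rw [← Matrix.vecMul_sub, Matrix.vecMul_vecMul]
      exact hLX u hu
    · intro u hu
      have hu' : (u ᵥ* Pc) ᵥ* R ∈ L := hu
      rw [Matrix.vecMul_vecMul] at hu'
      exact mem_of_vecMul_mem (Pc * R) (by rw [hdetC0]; exact isUnit_one) L hLC u hu'
  -- feedback
  obtain ⟨G, G', γ, hGG', hG'G, hGX⟩ := feedback X0 X (e N 0) φ hobs hX
  -- C' = C0 + d γ ⊗ e0
  set C' : Matrix (Fin (N + 1)) (Fin (N + 1)) ℤ := 1 + d • (X0 + vecMulVec γ (e N 0)) with hC'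
  have hGC : G * (1 + d • X) = C' * G := by
    have h1 : C' * G = G + d • ((X0 + vecMulVec γ (e N 0)) * G) := by
      rw [hC', add_mul 1 (d • (X0 + vecMulVec γ (e N 0))) G, one_mul, Matrix.smul_mul]
    rw [mul_add, mul_one, Matrix.mul_smul, hGX, h1]
  have hdetG : IsUnit G.det := by
    rw [← Matrix.isUnit_iff_isUnit_det]
    exact IsUnit.of_mul_eq_one _ hGG'
  have hdetC' : C'.det = 1 := by
    have h1 := congrArg Matrix.det hGC
    rw [Matrix.det_mul, Matrix.det_mul, hdet, mul_one] at h1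
    have h2 : C'.det * G.det = 1 * G.det := by rw [one_mul]; exact h1.symm
    exact hdetG.mul_right_cancel h2
  -- inverse of C0
  have hC0u : IsUnit (Pc * R) := by
    rw [Matrix.isUnit_iff_isUnit_det, hdetC0]; exact isUnit_one
  obtain ⟨Ci, hCi⟩ := hC0u.exists_right_inv
  set κv : Fin (N + 1) → ℤ := - (Ci *ᵥ γ) with hκv
  have hCκ : (Pc * R) *ᵥ κv = - γ := by
    rw [hκv, Matrix.mulVec_neg, Matrix.mulVec_mulVec, hCi, Matrix.one_mulVec]
  have hC'fac : C' = (Pc * R) * (1 - d • vecMulVec κv (e N 0)) := by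
    rw [mul_sub, mul_one, Matrix.mul_smul, Matrix.mul_vecMulVec, hCκ, hC0, hC',
      Matrix.neg_vecMulVec]
    module
  have hκ0 : κv 0 = 0 := by
    have h1 := congrArg Matrix.det hC'fac
    rw [hdetC', Matrix.det_mul, hdetC0, one_mul] at h1
    have h2 : d • vecMulVec κv (e N 0) = vecMulVec (d • κv) (e N 0) := by
      rw [Matrix.smul_vecMulVec]
    rw [h2, det_one_sub_vecMulVec] at h1
    have h3 : e N 0 ⬝ᵥ (d • κv) = d * κv 0 := by
      rw [dotProduct_smul, smul_eq_mul]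
      congr 1
      simp only [dotProduct, e]
      rw [Finset.sum_eq_single (0 : Fin (N + 1))]
      · simp
      · intro b _ hb
        have : ¬ ((b : ℕ) = 0) := fun h' => hb (Fin.ext (by simpa using h'))
        simp [this]
      · simp
    rw [h3] at h1
    have h4 : d * κv 0 = 0 := by linarith
    rcases mul_eq_zero.1 h4 with h5 | h5
    · exact absurd h5 hd
    · exact h5
  -- κ as a function on ℕ
  let κ : ℕ → ℤ := fun k => if h : k < N + 1 then κv ⟨k, h⟩ else 0
  have hκz : ∀ k, N < k → κ k = 0 := by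
    intro k hk
    simp only [κ]; rw [dif_neg (by omega)]
  have hκ00 : κ 0 = 0 := by
    simp only [κ]; rw [dif_pos (by omega)]; exact hκ0
  set Mb := mk N (mr N m d κ) with hMb
  set K := mk N (kr N m d κ) with hK
  have hKeq : K = Ph + d • vecMulVec κv (e N 0) := by
    ext i j
    have h1 : κ (i : ℕ) = κv i := by simp only [κ]; rw [dif_pos i.2]
    rw [Matrix.add_apply, Matrix.smul_apply, vecMulVec_apply, hK, hPh]
    simp only [mk, kr, Matrix.of_apply, Pi.add_apply, Pi.smul_apply, smul_eq_mul, h1]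
    ring
  have hMK : Mb * K = Pc * Mb := mr_kr hN hκz hκ00
  have hMinv := mr_inv (d := d) (κ := κ) hN hκz
  rw [← hMb] at hMinv
  set Mi := mk N (fun k => if k = 0 then e N N else e N (k - 1) - bb N m d κ (k - 1) • e N N) with hMi
  have hMMi : Mb * Mi = 1 := mul_eq_one_comm.1 hMinv
  -- K is invertible
  have hCK : C' * K = Pc := by
    rw [hC'fac, hKeq, mul_assoc]
    have h1 : (1 - d • vecMulVec κv (e N 0)) * (Ph + d • vecMulVec κv (e N 0)) = Ph := by
      rw [sub_mul, one_mul, mul_add, Matrix.smul_mul, Matrix.vecMulVec_mul, he0Ph,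
        Matrix.smul_mul, Matrix.mul_smul, Matrix.vecMulVec_mul_vecMulVec]
      have h2 : e N 0 ⬝ᵥ κv = 0 := by
        simp only [dotProduct, e]
        rw [Finset.sum_eq_single (0 : Fin (N + 1))]
        · simp [hκ0]
        · intro b _ hb
          have : ¬ ((b : ℕ) = 0) := fun h' => hb (Fin.ext (by simpa using h'))
          simp [this]
        · simp
      rw [h2]
      simp
    rw [h1, mul_assoc, hRP, mul_one]
  have hKu : IsUnit K := by
    rw [Matrix.isUnit_iff_isUnit_det]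
    have h1 := congrArg Matrix.det hCK
    rw [Matrix.det_mul, hdetC', one_mul, hdetPc] at h1
    rw [h1, ← Matrix.isUnit_iff_isUnit_det]
    exact IsUnit.of_mul_eq_one _ hPR
  obtain ⟨Ki, hKi⟩ := hKu.exists_right_inv
  have hKiK : Ki * K = 1 := mul_eq_one_comm.1 hKi
  -- C' = M K M⁻¹ K⁻¹
  have hcomm : Mb * K * Mi * Ki = C' := by
    rw [hMK, mul_assoc Pc Mb Mi, hMMi, mul_one, ← hCK, mul_assoc, hKi, mul_one]
  refine ⟨G' * Mb * G, G' * Mi * G, G' * K * G, G' * Ki * G, ?_, ?_, ?_⟩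
  · calc G' * Mb * G * (G' * Mi * G) = G' * Mb * (G * G') * Mi * G := by simp only [mul_assoc]
      _ = G' * (Mb * Mi) * G := by rw [hGG', mul_one, mul_assoc G' Mb Mi]
      _ = 1 := by rw [hMMi, mul_one, hG'G]
  · calc G' * K * G * (G' * Ki * G) = G' * K * (G * G') * Ki * G := by simp only [mul_assoc]
      _ = G' * (K * Ki) * G := by rw [hGG', mul_one, mul_assoc G' K Ki]
      _ = 1 := by rw [hKi, mul_one, hG'G]
  · calc G' * Mb * G * (G' * K * G) * (G' * Mi * G) * (G' * Ki * G)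
        = G' * Mb * (G * G') * K * (G * G') * Mi * (G * G') * Ki * G := by simp only [mul_assoc]
      _ = G' * (Mb * K * Mi * Ki) * G := by rw [hGG']; simp only [mul_one, mul_assoc]
      _ = G' * (C' * G) := by rw [hcomm, mul_assoc]
      _ = 1 + d • X := by rw [← hGC, ← mul_assoc, hG'G, one_mul]

end Pool.Agent.MP_584b0c_al.Cyc
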