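import Pool.Agent.Work.MP_584b0c_al.Cyc.Blocks

set_option autoImplicit false

open Matrix Polynomial

namespace Pool.Agent.MP_584b0c_al.Cyc

lemma vecMul_pow_mem {n : ℕ} (C : Matrix (Fin n) (Fin n) ℤ) (L : Submodule ℤ (Fin n → ℤ))
    (hcl : ∀ u ∈ L, u ᵥ* C ∈ L) (u : Fin n → ℤ) (hu : u ∈ L) (k : ℕ) : u ᵥ* C ^ k ∈ L := by
  induction k with
  | zero => simpa using hu
  | succ k ih => rw [pow_succ, ← Matrix.vecMul_vecMul]; exact hcl _ ih

lemma vecMul_aeval_mem {n : ℕ} (C : Matrix (Fin n) (Fin n) ℤ) (L : Submodule ℤ (Fin n → ℤ))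
    (hcl : ∀ u ∈ L, u ᵥ* C ∈ L) (u : Fin n → ℤ) (hu : u ∈ L) (q : ℤ[X]) :
    u ᵥ* (aeval C q) ∈ L := by
  rw [Polynomial.aeval_eq_sum_range, Matrix.vecMul_sum]
  refine Submodule.sum_mem _ fun i _ => ?_
  rw [Matrix.vecMul_smul]
  exact Submodule.smul_mem _ _ (vecMul_pow_mem C L hcl u hu i)

lemma mem_of_vecMul_mem {n : ℕ} (C : Matrix (Fin n) (Fin n) ℤ) (hC : IsUnit C.det)
    (L : Submodule ℤ (Fin n → ℤ)) (hcl : ∀ u ∈ L, u ᵥ* C ∈ L) (u : Fin n → ℤ)
    (hu : u ᵥ* C ∈ L) : u ∈ L := by
  have hc : IsUnit (C.charpoly.coeff 0) := by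
    have := Matrix.det_eq_sign_charpoly_coeff C
    rw [this] at hC
    exact isUnit_of_mul_isUnit_right hC
  have h0 : C * aeval C C.charpoly.divX + (C.charpoly.coeff 0) • (1 : Matrix (Fin n) (Fin n) ℤ) = 0 := by
    have h1 := Matrix.aeval_self_charpoly C
    conv at h1 => lhs; rw [← Polynomial.X_mul_divX_add C.charpoly]
    rw [map_add, map_mul, aeval_X, aeval_C] at h1
    rw [← Algebra.algebraMap_eq_smul_one]
    exact h1
  have h1 : (C.charpoly.coeff 0) • u ∈ L := by
    have h2 : u ᵥ* (C * aeval C C.charpoly.divX + (C.charpoly.coeff 0) • (1 : Matrix (Fin n) (Fin n) ℤ)) = 0 := by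
      rw [h0]; simp
    rw [Matrix.vecMul_add, Matrix.vecMul_smul, Matrix.vecMul_one, ← Matrix.vecMul_vecMul] at h2
    have h3 : (C.charpoly.coeff 0) • u = - ((u ᵥ* C) ᵥ* aeval C C.charpoly.divX) :=
      eq_neg_of_add_eq_zero_right h2
    rw [h3]
    exact Submodule.neg_mem _ (vecMul_aeval_mem C L hcl _ hu _)
  obtain ⟨s, hs⟩ := hc
  have h2 : (↑s⁻¹ : ℤ) • ((C.charpoly.coeff 0) • u) ∈ L := Submodule.smul_mem _ _ h1
  rw [← hs, smul_smul] at h2
  simpa using h2

lemma top_of_e {N : ℕ} (L : Submodule ℤ (Fin (N + 1) → ℤ)) (h : ∀ k ≤ N, e N k ∈ L) : L = ⊤ := by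
  rw [eq_top_iff]
  intro v _
  have : v = ∑ j : Fin (N + 1), v j • e N j := by
    funext i
    rw [Finset.sum_apply, Finset.sum_eq_single i]
    · simp [e]
    · intro b _ hb
      have : ¬ ((i : ℕ) = (b : ℕ)) := fun h' => hb (Fin.ext h'.symm)
      simp [e, this]
    · simp
  rw [this]
  exact Submodule.sum_mem _ fun j _ => Submodule.smul_mem _ _ (h _ (Nat.lt_succ_iff.1 j.2))

/-- the chain -/
theorem chain {N m : ℕ} {d : ℤ} (hN : N = 2 * m ∨ N = 2 * m + 3)
    (L M : Submodule ℤ (Fin (N + 1) → ℤ))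
    (h0 : e N 0 ∈ L) (h0' : e N 0 ∈ M)
    (r1 : ∀ u, u ᵥ* mk N (ph N m d) ∈ M → u ∈ L)
    (r2 : ∀ u ∈ L, u ᵥ* mk N (cr N m d) - u ᵥ* mk N (hr N m d) ∈ M)
    (r3 : ∀ u, u ᵥ* mk N (pc N m d) ∈ M → u ∈ L) : L = ⊤ := by
  have vph := e_vecMul (ph N m d) (ph_zero hN)
  have vpc := e_vecMul (pc N m d) pc_zero
  have vcr := e_vecMul (cr N m d) (fun k hk => cr_zero hk)
  have vhr := e_vecMul (hr N m d) (fun k hk => hr_zero hN hk)
  have main : ∀ i ≤ m, (∀ k ≤ 2 * i, e N k ∈ L ∧ e N k ∈ M) := by
    intro i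
    induction i with
    | zero => intro _ k hk; have : k = 0 := by omega
              subst this; exact ⟨h0, h0'⟩
    | succ i ih =>
      intro hi
      have ih := ih (by omega)
      have hk := ih (2 * i) le_rfl
      -- a
      have a : e N (2 * i + 1) ∈ M := by
        have h1 := r2 _ hk.1
        rw [vcr, vhr] at h1
        have c1 : cr N m d (2 * i) = e N (2 * i + 1) := by
          have h' : ¬ N ≤ 2 * i := by omega
          have h'' : 2 * i < 2 * m := by omega
          have h3 : (2 * i) % 2 = 0 := by omega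
          unfold cr
          rw [if_neg h', if_pos h'', if_pos h3]
        rcases Nat.eq_zero_or_pos i with hi0 | hi0
        · subst hi0
          rw [c1] at h1
          simpa [hr] using h1
        · have c2 : hr N m d (2 * i) = e N (2 * i - 1) + d • e N (2 * i) := by
            have h' : 2 * i ≠ 0 := by omega
            have h'' : 2 * i ≤ 2 * m := by omega
            have h3 : ¬ ((2 * i) % 2 = 1) := by omega
            unfold hr
            rw [if_neg h', if_pos h'', if_neg h3]
          rw [c1, c2] at h1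
          have h2 := (ih (2 * i - 1) (by omega)).2
          have := M.add_mem h1 (M.add_mem h2 (M.smul_mem d hk.2))
          simpa using this
      have b : e N (2 * i + 1) ∈ L := by
        apply r3
        rw [vpc, pc]
        have c1 : cr N m d (2 * i + 1) = e N (2 * i) + d • e N (2 * i + 1) := by
          have h' : ¬ N ≤ 2 * i + 1 := by omega
          have h'' : 2 * i + 1 < 2 * m := by omega
          have h3 : ¬ ((2 * i + 1) % 2 = 0) := by omega
          unfold cr
          rw [if_neg h', if_pos h'', if_neg h3]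
          rfl
        rw [c1]
        exact M.add_mem a (M.smul_mem d (M.add_mem hk.2 (M.smul_mem d a)))
      have c : e N (2 * i + 2) ∈ M := by
        have h1 := r2 _ b
        rw [vcr, vhr] at h1
        have c1 : cr N m d (2 * i + 1) = e N (2 * i) + d • e N (2 * i + 1) := by
          have h' : ¬ N ≤ 2 * i + 1 := by omega
          have h'' : 2 * i + 1 < 2 * m := by omega
          have h3 : ¬ ((2 * i + 1) % 2 = 0) := by omega
          unfold cr
          rw [if_neg h', if_pos h'', if_neg h3]
          rfl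
        have c2 : hr N m d (2 * i + 1) = e N (2 * i + 2) := by
          have h' : 2 * i + 1 ≠ 0 := by omega
          have h'' : 2 * i + 1 ≤ 2 * m := by omega
          have h3 : (2 * i + 1) % 2 = 1 := by omega
          unfold hr
          rw [if_neg h', if_pos h'', if_pos h3]
        rw [c1, c2] at h1
        have h2 := M.sub_mem (M.add_mem hk.2 (M.smul_mem d a)) h1
        simpa using h2
      have dd : e N (2 * i + 2) ∈ L := by
        apply r1
        rw [vph, ph]
        have c2 : hr N m d (2 * i + 2) = e N (2 * i + 1) + d • e N (2 * i + 2) := by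
          have h' : 2 * i + 2 ≠ 0 := by omega
          have h'' : 2 * i + 2 ≤ 2 * m := by omega
          have h3 : ¬ ((2 * i + 2) % 2 = 1) := by omega
          unfold hr
          rw [if_neg h', if_pos h'', if_neg h3]
          rfl
        rw [c2]
        exact M.add_mem c (M.smul_mem d (M.add_mem a (M.smul_mem d c)))
      intro k hk'
      rcases Nat.lt_or_ge k (2 * i + 1) with h | h
      · exact ih k (by omega)
      · rcases Nat.lt_or_ge k (2 * i + 2) with h' | h'
        · have : k = 2 * i + 1 := by omega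
          subst this; exact ⟨b, a⟩
        · have : k = 2 * i + 2 := by omega
          subst this; exact ⟨dd, c⟩
  have hm := main m le_rfl
  rcases hN with hN1 | hN1
  · exact top_of_e L fun k hk => (hm k (by omega)).1
  · -- the last block
    have hk := hm (2 * m) le_rfl
    have c0 : cr N m d (2 * m) = e N (2 * m + 2) := by
      have h' : ¬ N ≤ 2 * m := by omega
      unfold cr; rw [if_neg h', if_neg (lt_irrefl _), if_pos rfl]
    have c1 : cr N m d (2 * m + 1) = e N (2 * m) + (d - 1) • e N (2 * m + 2) := by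
      have h' : ¬ N ≤ 2 * m + 1 := by omega
      simp [cr, h']
    have c2 : cr N m d (2 * m + 2) = e N (2 * m) + e N (2 * m + 1) := by
      have h' : ¬ N ≤ 2 * m + 2 := by omega
      simp [cr, h']
    have c3 : cr N m d (2 * m + 3) = 0 := by
      have h' : N ≤ 2 * m + 3 := by omega
      simp [cr, h']
    have g1 : hr N m d (2 * m + 1) = e N (2 * m + 3) := by simp [hr]
    have g2 : hr N m d (2 * m + 2) = e N (2 * m + 1) + (d - 1) • e N (2 * m + 3) := by simp [hr]
    have g3 : hr N m d (2 * m + 3) = e N (2 * m + 1) + e N (2 * m + 2) := by simp [hr]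
    -- e_b ∈ M
    have b1 : e N (2 * m + 2) ∈ M := by
      have h1 := r2 _ hk.1
      rw [vcr, vhr, c0] at h1
      rcases Nat.eq_zero_or_pos m with hm0 | hm0
      · subst hm0
        simpa [hr] using h1
      · have g0 : hr N m d (2 * m) = e N (2 * m - 1) + d • e N (2 * m) := by
          have h' : 2 * m ≠ 0 := by omega
          have h3 : ¬ ((2 * m) % 2 = 1) := by omega
          unfold hr
          rw [if_neg h', if_pos le_rfl, if_neg h3]
        rw [g0] at h1
        have h2 := (hm (2 * m - 1) (by omega)).2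
        have := M.add_mem h1 (M.add_mem h2 (M.smul_mem d hk.2))
        simpa using this
    have b2 : e N (2 * m + 2) - d • e N (2 * m + 1) ∈ L := by
      apply r3
      rw [Matrix.sub_vecMul, Matrix.smul_vecMul, vpc, vpc, pc, pc, c1, c2]
      have : e N (2 * m + 2) + d • (e N (2 * m) + e N (2 * m + 1)) -
          d • (e N (2 * m + 1) + d • (e N (2 * m) + (d - 1) • e N (2 * m + 2)))
          = (1 - d ^ 2 * (d - 1)) • e N (2 * m + 2) + (d - d ^ 2) • e N (2 * m) := by module
      rw [this]
      exact M.add_mem (M.smul_mem _ b1) (M.smul_mem _ hk.2)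
    have b3 : e N (2 * m + 3) ∈ M := by
      have h1 := r2 _ b2
      rw [Matrix.sub_vecMul, Matrix.smul_vecMul, Matrix.sub_vecMul, Matrix.smul_vecMul,
        vcr, vcr, vhr, vhr, c1, c2, g1, g2] at h1
      have : e N (2 * m) + e N (2 * m + 1) - d • (e N (2 * m) + (d - 1) • e N (2 * m + 2)) -
          (e N (2 * m + 1) + (d - 1) • e N (2 * m + 3) - d • e N (2 * m + 3))
          = e N (2 * m + 3) + ((1 - d) • e N (2 * m) - (d * (d - 1)) • e N (2 * m + 2)) := by module
      rw [this] at h1
      exact (M.add_mem_iff_left (M.sub_mem (M.smul_mem _ hk.2) (M.smul_mem _ b1))).1 h1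
    have b4 : e N (2 * m + 3) ∈ L := by
      apply r3
      rw [vpc, pc, c3]
      simpa using b3
    have b5 : e N (2 * m + 1) ∈ M := by
      have h1 := r2 _ b4
      rw [vcr, vhr, c3, g3] at h1
      have h2 := M.neg_mem (M.add_mem h1 b1)
      simpa using h2
    refine top_of_e L fun k hk' => ?_
    rcases Nat.lt_or_ge k (2 * m + 1) with h | h
    · exact (hm k (by omega)).1
    · apply r1
      rw [vph, ph]
      have : k = 2 * m + 1 ∨ k = 2 * m + 2 ∨ k = 2 * m + 3 := by omega
      rcases this with rfl | rfl | rfl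
      · rw [g1]; exact M.add_mem b5 (M.smul_mem _ b3)
      · rw [g2]; exact M.add_mem b1 (M.smul_mem _ (M.add_mem b5 (M.smul_mem _ b3)))
      · rw [g3]; exact M.add_mem b3 (M.smul_mem _ (M.add_mem b5 b1))

end Pool.Agent.MP_584b0c_al.Cyc
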